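import Pool.Agent.Helper23.Pcf.Exists

/-!
Call a limit ordinal `α` a counterexample if `|pcf(a_α)| > |a_α|`.  If `a_α` is nonempty and
`|α| ^ |a_α| < ℵ_α`, then the counterexamples cannot go on too long after `α`: there is a limit
ordinal `β ≥ α` of cardinality at most `|α| ^ |a_α|` with
`|pcf(a_β)| = |a_β| = |pcf(a_α)|`, such that all limit ordinals in `[α, β)` are counterexamples.
-/

set_option autoImplicit false

open Cardinal Helper23.Pcf

universe u

namespace Pool.Agent.Results.MP_d25c2b_lc.NextGoodOrdinal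

theorem result (α : Ordinal.{u}) (hα : Order.IsSuccLimit α) (hne : (aSet α).Nonempty)
    (H : Cardinal.lift.{u + 1} α.card ^ #(aSet α) < Cardinal.lift.{u + 1} (ℵ_ α)) :
    ∃ β : Ordinal.{u}, Order.IsSuccLimit β ∧ α ≤ β ∧
      Cardinal.lift.{u + 1} β.card ≤ Cardinal.lift.{u + 1} α.card ^ #(aSet α) ∧
      #(aSet β) = #(pcf (aSet α)) ∧ #(pcf (aSet β)) = #(aSet β) ∧
      ∀ γ : Ordinal.{u}, Order.IsSuccLimit γ → α ≤ γ → γ < β →
        #(aSet γ) < #(pcf (aSet γ)) := by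
  obtain ⟨β, b1, b2, b3, b4, b5, b6⟩ := elem_core hα hne H
  refine ⟨β, b1, b2, b3, ?_, ?_, ?_⟩
  · rw [pcf_aSet]; exact b4
  · rw [pcf_aSet, b5, b4]
  · intro γ g1 g2 g3
    rw [pcf_aSet]
    exact lt_of_lt_of_le (b6 γ g1 g2 g3).1 (b6 γ g1 g2 g3).2

end Pool.Agent.Results.MP_d25c2b_lc.NextGoodOrdinal
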